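import Pool.Agent.H379R2.W.JChar
import Pool.Agent.Y549.SP.Stm2

set_option autoImplicit false

/-! Sums of Jacobi symbols over arithmetic progressions; products over blocks of primes. -/

namespace Pool.Agent.R418.SI

open Finset Pool.Agent.Y549.SP

/-- Pólya-Vinogradov for arithmetic progressions -/
lemma ap_sum (M a q X : ℕ) (hM : 1 ≤ M) (hne : ∃ a : ℕ, jacobiSym (a : ℤ) M = -1)
    (hq : Nat.Coprime q M) :
    |((∑ j ∈ range X, jacobiSym (-((a + q * j : ℕ) : ℤ)) M : ℤ) : ℝ)| ≤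
      2 * (M.divisors.card * (2 * Real.sqrt M * (1 + Real.log M))) := by
  have hNZ : NeZero M := ⟨by omega⟩
  -- `c` with `q c = a` modulo `M`
  obtain ⟨c, hc1, hc⟩ : ∃ c : ℕ, 1 ≤ c ∧ (q : ZMod M) * (c : ZMod M) = (a : ZMod M) := by
    have hu : IsUnit (q : ZMod M) := (ZMod.isUnit_iff_coprime q M).mpr hq
    obtain ⟨u, hu⟩ := hu
    refine ⟨((↑u⁻¹ : ZMod M) * (a : ZMod M)).val + M, by omega, ?_⟩
    rw [Nat.cast_add, ZMod.natCast_self, add_zero, ZMod.natCast_zmod_val, ← hu, ← mul_assoc,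
      Units.mul_inv, one_mul]
  have hterm : ∀ j : ℕ, jacobiSym (-((a + q * j : ℕ) : ℤ)) M =
      jacobiSym (-(q : ℤ)) M * jacobiSym ((c + j : ℕ) : ℤ) M := by
    intro j
    rw [← jacobiSym.mul_left]
    rw [jacobiSym.mod_left, jacobiSym.mod_left (-(q : ℤ) * ((c + j : ℕ) : ℤ))]
    congr 1
    have h : ((-((a + q * j : ℕ) : ℤ) : ℤ) : ZMod M) = ((-(q : ℤ) * ((c + j : ℕ) : ℤ) : ℤ) : ZMod M) := by
      push_cast
      rw [← hc]
      ring
    exact (ZMod.intCast_eq_intCast_iff _ _ M).mp h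
  have hsum : ∑ j ∈ range X, jacobiSym (-((a + q * j : ℕ) : ℤ)) M =
      jacobiSym (-(q : ℤ)) M * (∑ n ∈ Icc 1 (c + X - 1), jacobiSym (n : ℤ) M -
        ∑ n ∈ Icc 1 (c - 1), jacobiSym (n : ℤ) M) := by
    rw [sum_congr rfl fun j _ => hterm j, ← mul_sum]
    congr 1
    have e1 : ∀ m : ℕ, 1 ≤ m → Icc 1 (m - 1) = Ico 1 m := by
      intro m hm
      ext x
      rw [mem_Icc, mem_Ico]
      omega
    rw [e1 (c + X) (by omega), e1 c hc1, eq_sub_iff_add_eq, add_comm,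
      ← sum_Ico_consecutive _ hc1 (Nat.le_add_right c X)]
    congr 1
    rw [sum_Ico_eq_sum_range, Nat.add_sub_cancel_left]
  have h1 := Pool.Agent.H379R2.W.jacobi_sum_le M hM hne (c + X - 1)
  have h2 := Pool.Agent.H379R2.W.jacobi_sum_le M hM hne (c - 1)
  have h3 : |((jacobiSym (-(q : ℤ)) M : ℤ) : ℝ)| ≤ 1 := by
    rcases jacobiSym.trichotomy (-(q : ℤ)) M with h | h | h <;> rw [h] <;> norm_num
  rw [hsum]
  push_cast at h1 h2 ⊢
  rw [abs_mul]
  calc _ ≤ 1 * |(∑ n ∈ Icc 1 (c + X - 1), ((jacobiSym (n : ℤ) M : ℤ) : ℝ)) -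
        ∑ n ∈ Icc 1 (c - 1), ((jacobiSym (n : ℤ) M : ℤ) : ℝ)| :=
        mul_le_mul_of_nonneg_right h3 (abs_nonneg _)
    _ ≤ _ := by
      rw [one_mul]
      refine (abs_sub _ _).trans ?_
      linarith

/-- products of sums of Jacobi symbols over disjoint sets of primes, with the number of divisors -/
theorem PJ' (B : ℕ → Finset ℕ) (y b : ℕ) (J : Finset ℕ) :
  (∀ i ∈ J, ∀ p ∈ B i, p.Prime ∧ p ≠ 2 ∧ p ≤ y) → (∀ i ∈ J, (B i).card = b) →
  (∀ i ∈ J, ∀ j ∈ J, i ≠ j → Disjoint (B i) (B j)) →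
  ∃ S : Finset ℕ, S.card = b ^ J.card ∧
    (∀ n ∈ S, 1 ≤ n ∧ n ≤ y ^ J.card ∧ Odd n ∧ Squarefree n ∧ n.primeFactors ⊆ J.biUnion B ∧
      n.divisors.card ≤ 2 ^ J.card) ∧
    ∀ a : ℤ, ∑ n ∈ S, jacobiSym a n = ∏ i ∈ J, ∑ p ∈ B i, jacobiSym a p := by
  classical
  induction J using Finset.induction_on with
  | empty =>
    intro _ _ _
    refine ⟨{1}, by simp, ?_, fun a => by simp⟩
    intro n hn
    rw [Finset.mem_singleton] at hn
    subst hn
    exact ⟨le_rfl, by simp, odd_one, squarefree_one, by simp, by simp⟩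
  | insert i J hi ih =>
    intro hB hc hd
    obtain ⟨S, hS, hSn, hSa⟩ := ih
      (fun j hj => hB j (Finset.mem_insert_of_mem hj))
      (fun j hj => hc j (Finset.mem_insert_of_mem hj))
      (fun j hj k hk => hd j (Finset.mem_insert_of_mem hj) k (Finset.mem_insert_of_mem hk))
    have hp := hB i (Finset.mem_insert_self i J)
    have hndvd : ∀ p ∈ B i, ∀ n ∈ S, ¬ p ∣ n := by
      intro p hpi n hn hdvd
      obtain ⟨h1, _, _, _, h5, _⟩ := hSn n hn
      have h6 : p ∈ n.primeFactors := Nat.mem_primeFactors.2 ⟨(hp p hpi).1, hdvd, by omega⟩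
      obtain ⟨j, hj, hpj⟩ := Finset.mem_biUnion.1 (h5 h6)
      have hne : i ≠ j := by
        rintro rfl
        exact hi hj
      exact Finset.disjoint_left.1 (hd i (Finset.mem_insert_self i J) j
        (Finset.mem_insert_of_mem hj) hne) hpi hpj
    have hinj : Set.InjOn (fun x : ℕ × ℕ => x.1 * x.2) (B i ×ˢ S : Finset (ℕ × ℕ)) := by
      rintro ⟨p, n⟩ hx ⟨p', n'⟩ hx' h
      rw [Finset.mem_coe, Finset.mem_product] at hx hx'
      simp only at h hx hx'
      have h1 : p ∣ p' * n' := by rw [← h]; exact Dvd.intro n rfl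
      have h2 : p ∣ p' := ((hp p hx.1).1.dvd_mul.1 h1).resolve_right (hndvd p hx.1 n' hx'.2)
      have h3 : p = p' := (Nat.prime_dvd_prime_iff_eq (hp p hx.1).1 (hp p' hx'.1).1).1 h2
      subst h3
      have h4 : n = n' := Nat.eq_of_mul_eq_mul_left (hp p hx.1).1.pos h
      subst h4
      rfl
    refine ⟨(B i ×ˢ S).image (fun x : ℕ × ℕ => x.1 * x.2), ?_, ?_, ?_⟩
    · rw [Finset.card_image_of_injOn hinj, Finset.card_product,
        hc i (Finset.mem_insert_self i J), hS, Finset.card_insert_of_notMem hi, pow_succ, mul_comm]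
    · intro m hm
      obtain ⟨⟨p, n⟩, hpn, rfl⟩ := Finset.mem_image.1 hm
      rw [Finset.mem_product] at hpn
      simp only at hpn ⊢
      obtain ⟨hpi, hn⟩ := hpn
      obtain ⟨hpp, hp2, hpy⟩ := hp p hpi
      obtain ⟨h1, h2, h3, h4, h5, h6⟩ := hSn n hn
      have hcop : p.Coprime n := (Nat.Prime.coprime_iff_not_dvd hpp).2 (hndvd p hpi n hn)
      refine ⟨Nat.mul_pos hpp.pos h1, ?_, (hpp.odd_of_ne_two hp2).mul h3, ?_, ?_, ?_⟩
      · rw [Finset.card_insert_of_notMem hi, pow_succ, mul_comm (y ^ J.card)]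
        exact Nat.mul_le_mul hpy h2
      · exact (Nat.squarefree_mul hcop).2 ⟨hpp.prime.squarefree, h4⟩
      · rw [Nat.primeFactors_mul hpp.ne_zero (by omega), hpp.primeFactors, Finset.biUnion_insert]
        apply Finset.union_subset_union _ h5
        rw [Finset.singleton_subset_iff]
        exact hpi
      · rw [Nat.Coprime.card_divisors_mul hcop, Finset.card_insert_of_notMem hi, pow_succ,
          Nat.Prime.divisors hpp, Finset.card_pair hpp.one_lt.ne, mul_comm 2]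
        exact Nat.mul_le_mul_right 2 h6
    · intro a
      rw [Finset.sum_image hinj, Finset.sum_product, Finset.prod_insert hi, ← hSa,
        Finset.sum_mul_sum]
      apply Finset.sum_congr rfl
      intro p hpi
      apply Finset.sum_congr rfl
      intro n hn
      have hp0 : NeZero p := ⟨(hp p hpi).1.ne_zero⟩
      have hn0 : NeZero n := ⟨by have := (hSn n hn).1; omega⟩
      exact jacobiSym.mul_right a p n

lemma card_div_mul (m n : ℕ) (hm : m ≠ 0) (hn : n ≠ 0) :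
    (m * n).divisors.card ≤ m.divisors.card * n.divisors.card := by
  classical
  have h : (m * n).divisors ⊆ (m.divisors ×ˢ n.divisors).image (fun x : ℕ × ℕ => x.1 * x.2) := by
    intro d hd
    rw [Nat.mem_divisors] at hd
    obtain ⟨a, b, ha, hb, hab⟩ := exists_dvd_and_dvd_of_dvd_mul hd.1
    rw [mem_image]
    exact ⟨(a, b), by rw [mem_product, Nat.mem_divisors, Nat.mem_divisors]; exact ⟨⟨ha, hm⟩, hb, hn⟩,
      hab.symm⟩
  refine (card_le_card h).trans (card_image_le.trans ?_)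
  rw [card_product]

/-- an elementary inequality -/
lemma four_pow (r : ℕ) (hr : 1 ≤ r) : 4 ^ r ≤ 4 * r ^ r := by
  rcases Nat.lt_or_ge r 4 with h | h
  · interval_cases r <;> norm_num
  · have := Nat.pow_le_pow_left h r
    omega

lemma pow_bound (b y r : ℕ) (h : b * r ≤ y) : (4 * b) ^ r ≤ 4 * y ^ r := by
  rcases Nat.eq_zero_or_pos r with rfl | hr
  · simp
  have h1 := four_pow r hr
  have h2 : (b * r) ^ r ≤ y ^ r := Nat.pow_le_pow_left h r
  calc (4 * b) ^ r = 4 ^ r * b ^ r := mul_pow _ _ _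
    _ ≤ 4 * r ^ r * b ^ r := Nat.mul_le_mul_right _ h1
    _ = 4 * (b * r) ^ r := by rw [mul_pow]; ring
    _ ≤ 4 * y ^ r := Nat.mul_le_mul_left _ h2

/-- the large sieve inequality for arithmetic progressions -/
theorem LS (a q : ℕ) (B : ℕ → Finset ℕ) (X y b : ℕ) (J : Finset ℕ) (V : ℝ) (hX : 1 ≤ X)
    (hyJ : y ^ (2 * J.card) ≤ X) (hbJ : b * J.card ≤ y)
    (hB1 : ∀ i ∈ J, ∀ p ∈ B i, p.Prime ∧ p ≠ 2 ∧ p ≤ y ∧ ¬ p ∣ q) (hB2 : ∀ i ∈ J, (B i).card = b)
    (hB3 : ∀ i ∈ J, ∀ j ∈ J, i ≠ j → Disjoint (B i) (B j)) (hV : 0 ≤ V) :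
    (((range X).filter (fun j : ℕ => ∀ i ∈ J,
      V ≤ |((∑ p ∈ B i, jacobiSym (-((a + q * j : ℕ) : ℤ)) p : ℤ) : ℝ)|)).card : ℝ) *
        V ^ (2 * J.card) ≤ 33 * (X * (1 + Real.log X)) * (b : ℝ) ^ J.card := by
  obtain ⟨S, hS1, hS2, hS3⟩ := PJ' B y b J (fun i hi p hp =>
    ⟨(hB1 i hi p hp).1, (hB1 i hi p hp).2.1, (hB1 i hi p hp).2.2.1⟩) hB2 hB3
  obtain ⟨r, hr⟩ : ∃ r : ℕ, r = J.card := ⟨_, rfl⟩
  rw [← hr] at hS1 hS2 hyJ hbJ ⊢
  have hXr : (1 : ℝ) ≤ X := by exact_mod_cast hX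
  have hlogX : 0 ≤ Real.log X := Real.log_nonneg hXr
  -- the second moment
  have hL : (((range X).filter (fun j : ℕ => ∀ i ∈ J,
      V ≤ |((∑ p ∈ B i, jacobiSym (-((a + q * j : ℕ) : ℤ)) p : ℤ) : ℝ)|)).card : ℝ) *
        V ^ (2 * r) ≤ ∑ j ∈ range X,
          ((∑ n ∈ S, jacobiSym (-((a + q * j : ℕ) : ℤ)) n : ℤ) : ℝ) ^ 2 := by
    rw [← nsmul_eq_mul, ← sum_const]
    refine le_trans (sum_le_sum fun j hj => ?_)
      (sum_le_sum_of_subset_of_nonneg (filter_subset _ _) fun _ _ _ => by positivity)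
    rw [mem_filter] at hj
    rw [hS3, ← sq_abs]
    have h3 : V ^ r ≤ |((∏ i ∈ J, ∑ p ∈ B i, jacobiSym (-((a + q * j : ℕ) : ℤ)) p : ℤ) : ℝ)| := by
      rw [Int.cast_prod, abs_prod, hr, ← prod_const]
      exact prod_le_prod (fun _ _ => hV) fun i hi => hj.2 i hi
    rw [mul_comm 2, pow_mul]
    exact pow_le_pow_left₀ (by positivity) h3 2
  refine hL.trans ?_
  have hexp : ∑ j ∈ range X, ((∑ n ∈ S, jacobiSym (-((a + q * j : ℕ) : ℤ)) n : ℤ) : ℝ) ^ 2 =
      ∑ n ∈ S, ∑ n' ∈ S,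
        ((∑ j ∈ range X, jacobiSym (-((a + q * j : ℕ) : ℤ)) (n * n') : ℤ) : ℝ) := by
    have e1 : ∀ j ∈ range X, ((∑ n ∈ S, jacobiSym (-((a + q * j : ℕ) : ℤ)) n : ℤ) : ℝ) ^ 2 =
        ∑ n ∈ S, ∑ n' ∈ S, ((jacobiSym (-((a + q * j : ℕ) : ℤ)) (n * n') : ℤ) : ℝ) := by
      intro j _
      push_cast
      rw [pow_two, sum_mul_sum]
      refine sum_congr rfl fun n hn => sum_congr rfl fun n' hn' => ?_
      have hn0 : NeZero n := ⟨by have := (hS2 n hn).1; omega⟩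
      have hn0' : NeZero n' := ⟨by have := (hS2 n' hn').1; omega⟩
      rw [jacobiSym.mul_right]
      push_cast
      rfl
    rw [sum_congr rfl e1, sum_comm]
    refine sum_congr rfl fun n _ => ?_
    rw [sum_comm]
    refine sum_congr rfl fun n' _ => ?_
    push_cast
    rfl
  rw [hexp]
  obtain ⟨E, hE⟩ : ∃ E : ℝ, E = 2 * ((4 : ℝ) ^ r * (2 * (y : ℝ) ^ r * (1 + Real.log X))) := ⟨_, rfl⟩
  have hE0 : 0 ≤ E := by rw [hE]; positivity
  have hpair : ∀ n ∈ S, ∀ n' ∈ S,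
      ((∑ j ∈ range X, jacobiSym (-((a + q * j : ℕ) : ℤ)) (n * n') : ℤ) : ℝ) ≤
        (if n = n' then (X : ℝ) else 0) + E := by
    intro n hn n' hn'
    obtain ⟨a1, a2, a3, a4, a5, a6⟩ := hS2 n hn
    obtain ⟨b1, b2, b3, b4, b5, b6⟩ := hS2 n' hn'
    by_cases h : n = n'
    · rw [if_pos h]
      have h1 : ((∑ j ∈ range X, jacobiSym (-((a + q * j : ℕ) : ℤ)) (n * n') : ℤ) : ℝ) ≤ X := by
        have h2 : ∑ j ∈ range X, jacobiSym (-((a + q * j : ℕ) : ℤ)) (n * n') ≤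
            ∑ j ∈ range X, (1 : ℤ) := by
          refine sum_le_sum fun j _ => ?_
          rcases jacobiSym.trichotomy (-((a + q * j : ℕ) : ℤ)) (n * n') with h | h | h <;> omega
        rw [sum_const, card_range, nsmul_eq_mul, mul_one] at h2
        exact_mod_cast h2
      linarith
    · rw [if_neg h, zero_add]
      have hcop : ∀ m ∈ S, Nat.Coprime q m := by
        intro m hm
        obtain ⟨c1, c2, c3, c4, c5, c6⟩ := hS2 m hm
        rw [Nat.coprime_comm]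
        refine Nat.coprime_of_dvd fun p hp hpm hpq => ?_
        have h6 : p ∈ m.primeFactors := Nat.mem_primeFactors.2 ⟨hp, hpm, by omega⟩
        obtain ⟨i, hi, hpi⟩ := mem_biUnion.1 (c5 h6)
        exact (hB1 i hi p hpi).2.2.2 hpq
      have h1 := ap_sum (n * n') a q X (Nat.mul_pos a1 b1)
        (Pool.Agent.H379R2.W.exists_neg_one a4 b4 a3 b3 h)
        (Nat.Coprime.mul_right (hcop n hn) (hcop n' hn'))
      refine (le_abs_self _).trans (h1.trans ?_)
      rw [hE]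
      have h2 : ((n * n').divisors.card : ℝ) ≤ (4 : ℝ) ^ r := by
        have h3 := card_div_mul n n' (by omega) (by omega)
        have h4 : (n * n').divisors.card ≤ 2 ^ r * 2 ^ r := h3.trans (Nat.mul_le_mul a6 b6)
        have h5 : (2 : ℕ) ^ r * 2 ^ r = 4 ^ r := by rw [← mul_pow]; norm_num
        rw [h5] at h4
        exact_mod_cast h4
      have h6 : n * n' ≤ y ^ (2 * r) := by
        calc n * n' ≤ y ^ r * y ^ r := Nat.mul_le_mul a2 b2
          _ = y ^ (2 * r) := by rw [← pow_add]; congr 1; ring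
      have h7 : Real.sqrt ((n * n' : ℕ) : ℝ) ≤ (y : ℝ) ^ r := by
        rw [Real.sqrt_le_left (by positivity)]
        calc ((n * n' : ℕ) : ℝ) ≤ ((y ^ (2 * r) : ℕ) : ℝ) := by exact_mod_cast h6
          _ = ((y : ℝ) ^ r) ^ 2 := by push_cast; rw [← pow_mul, mul_comm]
      have h8 : Real.log ((n * n' : ℕ) : ℝ) ≤ Real.log X := by
        apply Real.log_le_log
        · exact_mod_cast Nat.mul_pos a1 b1
        · exact_mod_cast h6.trans hyJ
      have h9 : 0 ≤ Real.log ((n * n' : ℕ) : ℝ) := by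
        apply Real.log_nonneg
        exact_mod_cast Nat.mul_pos a1 b1
      gcongr
  have htot : ∑ n ∈ S, ∑ n' ∈ S,
        ((∑ j ∈ range X, jacobiSym (-((a + q * j : ℕ) : ℤ)) (n * n') : ℤ) : ℝ) ≤
      (b : ℝ) ^ r * X + (b : ℝ) ^ r * ((b : ℝ) ^ r * E) := by
    have hScard : (S.card : ℝ) = (b : ℝ) ^ r := by exact_mod_cast hS1
    calc _ ≤ ∑ n ∈ S, ∑ n' ∈ S, ((if n = n' then (X : ℝ) else 0) + E) :=
          sum_le_sum fun n hn => sum_le_sum fun n' hn' => hpair n hn n' hn'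
      _ = ∑ n ∈ S, ((X : ℝ) + S.card * E) := by
          refine sum_congr rfl fun n hn => ?_
          rw [sum_add_distrib, sum_ite_eq, if_pos hn, sum_const, nsmul_eq_mul]
      _ = _ := by
          rw [sum_const, nsmul_eq_mul, hScard]
          ring
  refine htot.trans ?_
  have hbE : (b : ℝ) ^ r * E ≤ 32 * ((X : ℝ) * (1 + Real.log X)) / 2 := by
    have h1 : (4 * (b : ℝ)) ^ r ≤ 4 * (y : ℝ) ^ r := by exact_mod_cast pow_bound b y r hbJ
    have h2 : (y : ℝ) ^ r * (y : ℝ) ^ r ≤ X := by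
      have h3 : ((y ^ (2 * r) : ℕ) : ℝ) ≤ X := by exact_mod_cast hyJ
      rw [← pow_add]
      calc (y : ℝ) ^ (r + r) = ((y ^ (2 * r) : ℕ) : ℝ) := by
            push_cast
            congr 1
            ring
        _ ≤ X := h3
    rw [hE]
    calc (b : ℝ) ^ r * (2 * ((4 : ℝ) ^ r * (2 * (y : ℝ) ^ r * (1 + Real.log X)))) =
          4 * ((4 * (b : ℝ)) ^ r * ((y : ℝ) ^ r * (1 + Real.log X))) := by rw [mul_pow]; ring
      _ ≤ 4 * (4 * (y : ℝ) ^ r * ((y : ℝ) ^ r * (1 + Real.log X))) := by gcongr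
      _ = 16 * ((y : ℝ) ^ r * (y : ℝ) ^ r * (1 + Real.log X)) := by ring
      _ ≤ 16 * (X * (1 + Real.log X)) := by gcongr
      _ = _ := by ring
  have hbr : 0 ≤ (b : ℝ) ^ r := by positivity
  have h3 : (X : ℝ) ≤ X * (1 + Real.log X) := by nlinarith
  calc (b : ℝ) ^ r * X + (b : ℝ) ^ r * ((b : ℝ) ^ r * E) ≤
        (b : ℝ) ^ r * (X * (1 + Real.log X)) +
          (b : ℝ) ^ r * (32 * ((X : ℝ) * (1 + Real.log X)) / 2) :=
        add_le_add (mul_le_mul_of_nonneg_left h3 hbr) (mul_le_mul_of_nonneg_left hbE hbr)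
    _ ≤ 33 * (X * (1 + Real.log X)) * (b : ℝ) ^ r := by
        have : 0 ≤ (X : ℝ) * (1 + Real.log X) * (b : ℝ) ^ r := by positivity
        nlinarith

end Pool.Agent.R418.SI
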