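import Pool.Agent.R418.SI.A
import Pool.Agent.Y549.SP.BL
import Pool.Agent.Y549.SP.NUM2

set_option autoImplicit false

/-! Few terms of an arithmetic progression have a large sum of Jacobi symbols. -/

namespace Pool.Agent.R418.SI

open Finset Pool.Agent.Y549.SP

theorem BADS (A ρ κ η ε : ℝ) (hρ : 0 < ρ) (hρ1 : ρ ≤ 1) (hAρ : 1 < A * ρ) (hκ : 0 < κ)
    (hκ1 : κ ≤ 1) (hη : 0 < η) (hη1 : η ≤ 1) (hε : 0 < ε) :
    ∃ c K : ℝ, 0 < c ∧ 0 < K ∧ ∀ (a q : ℕ) (P : Finset ℕ) (X y : ℕ), 1 ≤ X →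
      (∀ p ∈ P, p.Prime ∧ p ≠ 2 ∧ p ≤ y ∧ ¬ p ∣ q) →
      (Real.log X / A) ^ A ≤ y → (y : ℝ) ≤ (X : ℝ) ^ c → κ * (y : ℝ) ^ ρ ≤ P.card * Real.log y →
      (((range X).filter (fun j : ℕ => η * P.card ≤
        |((∑ p ∈ P, jacobiSym (-((a + q * j : ℕ) : ℤ)) p : ℤ) : ℝ)|)).card : ℝ) ≤
          K * (X : ℝ) ^ (1 - ρ / 2 + 1 / (2 * A) + ε) := by
  classical
  have hA : 1 < A := by nlinarith
  have hA0 : 0 < A := by linarith
  have hiA : 0 < 1 / A := by positivity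
  have hiA2 : 1 / (2 * A) = 1 / A / 2 := by field_simp
  obtain ⟨c, K, hc, hK, hN⟩ := NUM2.main A ρ κ η ε hρ hρ1 hAρ hκ hκ1 hη hη1 hε
  refine ⟨c / 3, 25 + 4 * K + 132 * K * (1 + 4 / ε), by positivity, by positivity, ?_⟩
  intro a q P X y hX hP hy1 hy2 hk
  have hXr : (1 : ℝ) ≤ X := by exact_mod_cast hX
  have hX0 : (0 : ℝ) < X := by linarith
  obtain ⟨F, hF⟩ : ∃ F : ℝ, F = (X : ℝ) ^ (1 - ρ / 2 + 1 / (2 * A) + ε) := ⟨_, rfl⟩
  have hexp0 : 0 < 1 - ρ / 2 + 1 / (2 * A) + ε := by rw [hiA2]; linarith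
  have hF1 : 1 ≤ F := by rw [hF]; exact Real.one_le_rpow hXr hexp0.le
  have hF0 : 0 < F := by linarith
  rw [← hF]
  obtain ⟨bad, hbad⟩ : ∃ bad : Finset ℕ, bad = (range X).filter (fun j : ℕ => η * P.card ≤
        |((∑ p ∈ P, jacobiSym (-((a + q * j : ℕ) : ℤ)) p : ℤ) : ℝ)|) := ⟨_, rfl⟩
  rw [← hbad]
  have htriv : (bad.card : ℝ) ≤ X := by
    have h1 := card_filter_le (range X) (fun j : ℕ => η * P.card ≤
        |((∑ p ∈ P, jacobiSym (-((a + q * j : ℕ) : ℤ)) p : ℤ) : ℝ)|)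
    rw [← hbad, card_range] at h1
    exact_mod_cast h1
  have hKF : 0 ≤ K * F := by positivity
  have hKF2 : 0 ≤ K * (1 + 4 / ε) * F := by positivity
  obtain ⟨X', hX'⟩ : ∃ X' : ℕ, X' = Nat.sqrt X := ⟨_, rfl⟩
  have hX'1 : 1 ≤ X' := by
    rw [hX', Nat.one_le_iff_ne_zero]
    intro h
    rw [Nat.sqrt_eq_zero] at h
    omega
  have hX'2 : X' * X' ≤ X := by rw [hX']; exact Nat.sqrt_le X
  have hX'3 : X < (X' + 1) * (X' + 1) := by rw [hX']; exact Nat.lt_succ_sqrt X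
  have hX'r : (1 : ℝ) ≤ X' := by exact_mod_cast hX'1
  have hX'0 : (0 : ℝ) < X' := by linarith
  have h4 : (X : ℝ) ≤ 4 * (X' : ℝ) ^ 2 := by
    have h1 : (X : ℝ) < ((X' : ℝ) + 1) * ((X' : ℝ) + 1) := by exact_mod_cast hX'3
    nlinarith
  have h5 : (X' : ℝ) ≤ (X : ℝ) ^ (1 / 2 : ℝ) := by
    rw [← Real.sqrt_eq_rpow]
    apply Real.le_sqrt_of_sq_le
    rw [pow_two]
    exact_mod_cast hX'2
  by_cases hsm : X' < 4
  · have h1 : (X : ℝ) ≤ 25 := by
      have : X < 25 := by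
        calc X < (X' + 1) * (X' + 1) := hX'3
          _ ≤ 4 * 4 := Nat.mul_le_mul (by omega) (by omega)
          _ ≤ 25 := by norm_num
      exact_mod_cast this.le
    calc (bad.card : ℝ) ≤ 25 := htriv.trans h1
      _ ≤ 25 * F := by linarith
      _ ≤ (25 + 4 * K + 132 * K * (1 + 4 / ε)) * F := by nlinarith
  push Not at hsm
  have hX'4 : (4 : ℝ) ≤ X' := by exact_mod_cast hsm
  have hcardP : P.card ≤ y := by
    have h : P ⊆ Icc 1 y := by
      intro p hp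
      obtain ⟨h1, -, h2, -⟩ := hP p hp
      rw [mem_Icc]
      exact ⟨h1.one_lt.le, h2⟩
    have := card_le_card h
    rwa [Nat.card_Icc, Nat.add_sub_cancel] at this
  have c1 : (Real.log X' / A) ^ A ≤ (y : ℝ) := by
    refine le_trans ?_ hy1
    apply Real.rpow_le_rpow (div_nonneg (Real.log_nonneg hX'r) hA0.le) _ hA0.le
    apply div_le_div_of_nonneg_right _ hA0.le
    apply Real.log_le_log hX'0
    have : X' ≤ X := (Nat.le_mul_self X').trans hX'2
    exact_mod_cast this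
  have c2 : (y : ℝ) ≤ (X' : ℝ) ^ c := by
    refine hy2.trans ?_
    have h1 : (X : ℝ) ≤ (X' : ℝ) ^ (3 : ℝ) := by
      have : (X' : ℝ) ^ (3 : ℝ) = (X' : ℝ) ^ 3 := by
        rw [← Real.rpow_natCast]
        norm_num
      rw [this]
      calc (X : ℝ) ≤ 4 * (X' : ℝ) ^ 2 := h4
        _ ≤ X' * (X' : ℝ) ^ 2 := mul_le_mul_of_nonneg_right hX'4 (by positivity)
        _ = (X' : ℝ) ^ 3 := by ring
    calc (X : ℝ) ^ (c / 3) ≤ ((X' : ℝ) ^ (3 : ℝ)) ^ (c / 3) :=
          Real.rpow_le_rpow hX0.le h1 (by positivity)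
      _ = (X' : ℝ) ^ c := by
          rw [← Real.rpow_mul hX'0.le]
          congr 1
          ring
  have hpow : ∀ s : ℝ, 0 ≤ s → (X' : ℝ) ^ s ≤ (X : ℝ) ^ (s / 2) := by
    intro s hs
    calc (X' : ℝ) ^ s ≤ ((X : ℝ) ^ (1 / 2 : ℝ)) ^ s := Real.rpow_le_rpow hX'0.le h5 hs
      _ = (X : ℝ) ^ (s / 2) := by
          rw [← Real.rpow_mul hX0.le]
          congr 1
          ring
  rcases hN X' y P.card hX'1 c1 c2 hk hcardP with hs | ⟨r, k, b, hb, a1, a2, a3, a4, a5, a6⟩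
  · have h1 : (X : ℝ) ≤ 4 * K * F := by
      calc (X : ℝ) ≤ 4 * (X' : ℝ) ^ 2 := h4
        _ = 4 * (X' * X') := by ring
        _ ≤ 4 * (X' * (K * (X' : ℝ) ^ (1 - ρ + 1 / A + ε))) := by gcongr
        _ = 4 * K * (X' : ℝ) ^ (1 + (1 - ρ + 1 / A + ε)) := by
            rw [Real.rpow_add hX'0 1, Real.rpow_one]
            ring
        _ ≤ 4 * K * (X : ℝ) ^ ((1 + (1 - ρ + 1 / A + ε)) / 2) := by
            have := hpow (1 + (1 - ρ + 1 / A + ε)) (by linarith)
            gcongr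
        _ ≤ 4 * K * F := by
            rw [hF]
            have := Real.rpow_le_rpow_of_exponent_le hXr
              (show (1 + (1 - ρ + 1 / A + ε)) / 2 ≤ 1 - ρ / 2 + 1 / (2 * A) + ε by
                rw [hiA2]; linarith)
            gcongr
    calc (bad.card : ℝ) ≤ 4 * K * F := htriv.trans h1
      _ ≤ (25 + 4 * K + 132 * K * (1 + 4 / ε)) * F := by nlinarith
  · obtain ⟨B, b1, b2, b3⟩ := BL.main P k b a2 a3
    have hcov : bad ⊆
        ((range k).powersetCard r).biUnion (fun J => (range X).filter (fun j : ℕ => ∀ i ∈ J,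
          η / 4 * b ≤ |((∑ p ∈ B i, jacobiSym (-((a + q * j : ℕ) : ℤ)) p : ℤ) : ℝ)|)) := by
      intro j hj
      rw [hbad, mem_filter] at hj
      obtain ⟨J, e1, e2, e3⟩ := b3 (fun p => jacobiSym (-((a + q * j : ℕ) : ℤ)) p) η r (fun p _ => by
        exact Pool.Agent.H379R2.W.jacobi_natAbs_le (-((a + q * j : ℕ) : ℤ)) p)
        hη hη1 a4 a5 hj.2
      rw [mem_biUnion]
      exact ⟨J, mem_powersetCard.mpr ⟨e1, e2⟩, mem_filter.mpr ⟨hj.1, e3⟩⟩
    obtain ⟨W, hW⟩ : ∃ W : ℝ, W = (η / 4 * b) ^ (2 * r) := ⟨_, rfl⟩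
    have hb' : (0 : ℝ) < b := by exact_mod_cast hb
    have hW0 : 0 < W := by rw [hW]; positivity
    have hlogX : 0 ≤ Real.log X := Real.log_nonneg hXr
    have hrk : r ≤ k := by
      have h1 : (r : ℝ) ≤ k := by
        have h2 : η * (k : ℝ) ≤ 1 * k := mul_le_mul_of_nonneg_right hη1 (Nat.cast_nonneg k)
        have h3 : (0 : ℝ) ≤ r := Nat.cast_nonneg r
        linarith
      exact_mod_cast h1
    have hbr : b * r ≤ y := by
      calc b * r ≤ b * k := Nat.mul_le_mul_left b hrk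
        _ = k * b := mul_comm _ _
        _ ≤ P.card := a2
        _ ≤ y := hcardP
    have hy2r : y ^ (2 * r) ≤ X := by
      calc y ^ (2 * r) = y ^ r * y ^ r := by rw [← pow_add]; congr 1; ring
        _ ≤ X' * X' := Nat.mul_le_mul a1 a1
        _ ≤ X := hX'2
    have heach : ∀ J ∈ (range k).powersetCard r,
        (((range X).filter (fun j : ℕ => ∀ i ∈ J,
          η / 4 * b ≤ |((∑ p ∈ B i, jacobiSym (-((a + q * j : ℕ) : ℤ)) p : ℤ) : ℝ)|)).card : ℝ) *
            W ≤ 33 * (X * (1 + Real.log X)) * (b : ℝ) ^ r := by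
      intro J hJ
      rw [mem_powersetCard] at hJ
      have hlt : ∀ i ∈ J, i < k := fun i hi => mem_range.mp (hJ.1 hi)
      have h3 := LS a q B X y b J (η / 4 * b) hX (by rw [hJ.2]; exact hy2r) (by rw [hJ.2]; exact hbr)
        (fun i hi p hp => hP p ((b1 i (hlt i hi)).1 hp))
        (fun i hi => (b1 i (hlt i hi)).2)
        (fun i hi j hj hij => b2 i (hlt i hi) j (hlt j hj) hij) (by positivity)
      rw [hJ.2, ← hW] at h3
      exact h3
    have h6 : (bad.card : ℝ) * W ≤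
        2 ^ k * (33 * (X * (1 + Real.log X)) * (b : ℝ) ^ r) := by
      calc _ ≤ (∑ J ∈ (range k).powersetCard r, (((range X).filter (fun j : ℕ => ∀ i ∈ J,
          η / 4 * b ≤ |((∑ p ∈ B i, jacobiSym (-((a + q * j : ℕ) : ℤ)) p : ℤ) : ℝ)|)).card : ℝ)) *
            W := by
            refine mul_le_mul_of_nonneg_right ?_ hW0.le
            exact_mod_cast (card_le_card hcov).trans card_biUnion_le
        _ = ∑ J ∈ (range k).powersetCard r, (((range X).filter (fun j : ℕ => ∀ i ∈ J,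
          η / 4 * b ≤ |((∑ p ∈ B i, jacobiSym (-((a + q * j : ℕ) : ℤ)) p : ℤ) : ℝ)|)).card : ℝ) *
            W := by
            rw [sum_mul]
        _ ≤ ∑ J ∈ (range k).powersetCard r, 33 * (X * (1 + Real.log X)) * (b : ℝ) ^ r :=
            sum_le_sum heach
        _ = (k.choose r : ℝ) * (33 * (X * (1 + Real.log X)) * (b : ℝ) ^ r) := by
            rw [sum_const, card_powersetCard, card_range, nsmul_eq_mul]
        _ ≤ _ := by
            refine mul_le_mul_of_nonneg_right ?_ (by positivity)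
            exact_mod_cast Nat.choose_le_two_pow k r
    rw [← hW] at a6
    obtain ⟨G, hG⟩ : ∃ G : ℝ, G = (X' : ℝ) ^ (1 + ε / 2) := ⟨_, rfl⟩
    have hG0 : 0 < G := by rw [hG]; positivity
    obtain ⟨H, hH⟩ : ∃ H : ℝ, H = (X' : ℝ) ^ (1 - ρ + 1 / A + ε) := ⟨_, rfl⟩
    have hH0 : 0 < H := by rw [hH]; positivity
    rw [← hG, ← hH] at a6
    have hlG : 0 ≤ (X : ℝ) * (1 + Real.log X) := by positivity
    have h7 : (bad.card : ℝ) * G ≤ 33 * (X * (1 + Real.log X)) * (K * H) := by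
      have h8 : ((bad.card : ℝ) * G) * W ≤ (33 * (X * (1 + Real.log X)) * (K * H)) * W := by
        calc ((bad.card : ℝ) * G) * W = G * ((bad.card : ℝ) * W) := by ring
          _ ≤ G * (2 ^ k * (33 * (X * (1 + Real.log X)) * (b : ℝ) ^ r)) :=
              mul_le_mul_of_nonneg_left h6 hG0.le
          _ = 33 * (X * (1 + Real.log X)) * (G * 2 ^ k * (b : ℝ) ^ r) := by ring
          _ ≤ 33 * (X * (1 + Real.log X)) * (K * H * W) :=
              mul_le_mul_of_nonneg_left a6 (by positivity)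
          _ = _ := by ring
      exact le_of_mul_le_mul_right h8 hW0
    have h9 : (bad.card : ℝ) ≤ 132 * K * (1 + Real.log X) *
        (X' : ℝ) ^ (2 - ρ + 1 / A + ε / 2) := by
      have h10 : (bad.card : ℝ) * G ≤ (132 * K * (1 + Real.log X) *
        (X' : ℝ) ^ (2 - ρ + 1 / A + ε / 2)) * G := by
        have h11 : (X' : ℝ) ^ (2 - ρ + 1 / A + ε / 2) * G = (X' : ℝ) ^ 2 * H := by
          rw [hG, hH, ← Real.rpow_natCast, ← Real.rpow_add hX'0, ← Real.rpow_add hX'0]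
          congr 1
          push_cast
          ring
        calc (bad.card : ℝ) * G ≤ 33 * (X * (1 + Real.log X)) * (K * H) := h7
          _ ≤ 33 * (4 * (X' : ℝ) ^ 2 * (1 + Real.log X)) * (K * H) := by gcongr
          _ = 132 * K * (1 + Real.log X) * ((X' : ℝ) ^ 2 * H) := by ring
          _ = _ := by rw [← h11]; ring
      exact le_of_mul_le_mul_right h10 hG0
    have h12 : 1 + Real.log X ≤ (1 + 4 / ε) * (X : ℝ) ^ (ε / 4) := by
      have h13 := Real.log_le_rpow_div hX0.le (show 0 < ε / 4 by positivity)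
      have h14 : (1 : ℝ) ≤ (X : ℝ) ^ (ε / 4) := Real.one_le_rpow hXr (by positivity)
      have h15 : (X : ℝ) ^ (ε / 4) / (ε / 4) = 4 / ε * (X : ℝ) ^ (ε / 4) := by
        field_simp
      rw [h15] at h13
      linarith
    have h16 := hpow (2 - ρ + 1 / A + ε / 2) (by linarith)
    have h17 : (bad.card : ℝ) ≤ 132 * K * (1 + 4 / ε) * F := by
      calc (bad.card : ℝ) ≤ 132 * K * (1 + Real.log X) *
            (X' : ℝ) ^ (2 - ρ + 1 / A + ε / 2) := h9
        _ ≤ 132 * K * ((1 + 4 / ε) * (X : ℝ) ^ (ε / 4)) *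
            (X : ℝ) ^ ((2 - ρ + 1 / A + ε / 2) / 2) := by gcongr
        _ = 132 * K * (1 + 4 / ε) * (X : ℝ) ^ (ε / 4 + (2 - ρ + 1 / A + ε / 2) / 2) := by
            rw [Real.rpow_add hX0]
            ring
        _ ≤ 132 * K * (1 + 4 / ε) * F := by
            rw [hF]
            have := Real.rpow_le_rpow_of_exponent_le hXr
              (show ε / 4 + (2 - ρ + 1 / A + ε / 2) / 2 ≤ 1 - ρ / 2 + 1 / (2 * A) + ε by
                rw [hiA2]; linarith)
            gcongr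
    calc (bad.card : ℝ) ≤ 132 * K * (1 + 4 / ε) * F := h17
      _ ≤ (25 + 4 * K + 132 * K * (1 + 4 / ε)) * F := by nlinarith

end Pool.Agent.R418.SI
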