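import Pool.Agent.R418.SI.B
import Pool.Agent.Y549.SP.TW
import Pool.Agent.Y549.SP.SPL

set_option autoImplicit false

/-! All values of `y` at once. -/

namespace Pool.Agent.R418.SI

open Finset Filter Pool.Agent.Y549.SP

/-- consequences of `Thick` -/
lemma BIG (ρ e : ℝ) (Q : Set ℕ) (hρ : 1 / 2 < ρ) (he : 0 < e) (hQ : Thick Q ρ) :
    ∃ κ : ℝ, 0 < κ ∧ κ ≤ 1 ∧ ∃ y₁ : ℕ, 2 ≤ y₁ ∧ ∀ y : ℕ, y₁ ≤ y →
      κ * (y : ℝ) ^ ρ ≤ (oq Q y).card * Real.log y ∧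
      5 * (y : ℝ) ^ (1 / 2 : ℝ) ≤ e * (oq Q y).card := by
  obtain ⟨κ₀, hκ₀, y₀, hy₀⟩ := hQ
  have hρ0 : 0 < ρ := by linarith
  obtain ⟨κ, hκdef⟩ : ∃ κ : ℝ, κ = min κ₀ 1 / 4 := ⟨_, rfl⟩
  have hκ : 0 < κ := by
    have := lt_min hκ₀ one_pos
    rw [hκdef]
    positivity
  have hκ1 : κ ≤ 1 := by
    have := min_le_right κ₀ (1 : ℝ)
    rw [hκdef]; linarith
  obtain ⟨y₁, hy₁⟩ := eventually_atTop.1 (CNT2.step1 hρ0 hκ₀ hy₀)
  obtain ⟨y₂, hy₂⟩ := eventually_atTop.1 (CNT2.step3 (A := 2) (ρ := ρ) (e := 3 / 5 * (e * κ))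
    two_pos (by linarith) (by positivity))
  refine ⟨κ, hκ, hκ1, max (max y₁ y₂) 2, le_max_right _ _, fun y hy => ?_⟩
  have h1 : y₁ ≤ y := ((le_max_left _ _).trans (le_max_left _ _)).trans hy
  have h2 : y₂ ≤ y := ((le_max_right _ _).trans (le_max_left _ _)).trans hy
  have h3 : 2 ≤ y := (le_max_right _ _).trans hy
  have hy2' : (2 : ℝ) ≤ y := by exact_mod_cast h3
  have hly : 0 < Real.log (y : ℝ) := Real.log_pos (by linarith)
  have hk1 := hy₁ y h1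
  rw [← hκdef] at hk1
  have hk2 := hy₂ y h2
  refine ⟨hk1, ?_⟩
  have h8 : 5 * (y : ℝ) ^ (1 / 2 : ℝ) * Real.log y ≤ (e * (oq Q y).card) * Real.log y := by
    have h9 : e * (κ * (y : ℝ) ^ ρ) ≤ e * ((oq Q y).card * Real.log y) :=
      mul_le_mul_of_nonneg_left hk1 he.le
    linarith
  exact le_of_mul_le_mul_right h8 hly

theorem CORE (A ρ η ε : ℝ) (Q : Set ℕ) (hA : 2 ≤ A) (hρ : 1 / 2 < ρ) (hρ1 : ρ ≤ 1) (hη : 0 < η)
    (hη1 : η ≤ 1) (hε : 0 < ε) (hQ : Thick Q ρ) :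
    ∃ C K L₀ : ℝ, 0 < C ∧ 0 < K ∧ 1 ≤ L₀ ∧
      (∀ l : ℝ, L₀ ≤ l → ∀ y : ℕ, l ^ 2 ≤ y → 5 * l ≤ η * (oq Q y).card) ∧
      ∀ (l : ℝ) (a q X : ℕ), L₀ ≤ l → 1 ≤ q → Real.log q ≤ 2 * l → l ^ C ≤ X →
        (X : ℝ) ≤ Real.exp (l ^ (2 / A)) → ∀ T : Finset ℕ,
        (∀ j ∈ T, j < X ∧ ∃ y : ℕ, l ^ 2 ≤ y ∧ (y : ℝ) ≤ l ^ 3 ∧
          η * (oq Q y).card ≤ |(ss Q (a + q * j) y : ℝ)|) →
        (T.card : ℝ) ≤ K * (X : ℝ) ^ (1 - ρ / 2 + 1 / (2 * A) + ε) := by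
  classical
  have hA0 : (0 : ℝ) < A := by linarith
  have hρ0 : 0 < ρ := by linarith
  have hAρ : 1 < A * ρ := by nlinarith
  obtain ⟨κ, hκ, hκ1, y₁, hy₁2, hbig⟩ := BIG ρ (η / 2) Q hρ (by positivity) hQ
  obtain ⟨c, K₀, hc, hK₀, hbad⟩ := BADS A ρ (κ / 2) (η / 2) (ε / 2) hρ0 hρ1 hAρ (by positivity)
    (by linarith) (by positivity) (by linarith) (by positivity)
  have hC3 : 3 ≤ (3 / c + 6 / ε) * c := by
    have h1 : (3 / c + 6 / ε) * c = 3 + 6 / ε * c := by field_simp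
    have h2 : 0 < 6 / ε * c := by positivity
    linarith
  have hC4 : 3 ≤ (3 / c + 6 / ε) * (ε / 2) := by
    have h1 : (3 / c + 6 / ε) * (ε / 2) = 3 + 3 / c * (ε / 2) := by
      field_simp
      ring
    have h2 : 0 < 3 / c * (ε / 2) := by positivity
    linarith
  have hiA : 0 < 1 / A := by positivity
  have hy₁r : (2 : ℝ) ≤ (y₁ : ℝ) := by exact_mod_cast hy₁2
  -- facts for `y ≥ l ^ 2`
  have hfact : ∀ l : ℝ, (y₁ : ℝ) ≤ l → ∀ y : ℕ, l ^ 2 ≤ y → y₁ ≤ y ∧ l ≤ (y : ℝ) ^ (1 / 2 : ℝ) := by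
    intro l hl y hy
    have hl1 : 1 ≤ l := by linarith
    have hl0 : 0 ≤ l := by linarith
    constructor
    · have : (y₁ : ℝ) ≤ y := hl.trans ((le_self_pow₀ hl1 two_ne_zero).trans hy)
      exact_mod_cast this
    · have h1 : l = (l ^ 2) ^ (1 / 2 : ℝ) := by
        rw [← Real.sqrt_eq_rpow, Real.sqrt_sq hl0]
      rw [h1]
      exact Real.rpow_le_rpow (by positivity) hy (by norm_num)
  refine ⟨3 / c + 6 / ε, 2 * K₀, y₁, by positivity, by positivity, by linarith, ?_, ?_⟩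
  · intro l hl y hy
    obtain ⟨h1, h2⟩ := hfact l hl y hy
    have h3 := (hbig y h1).2
    have h4 : 0 ≤ ((oq Q y).card : ℝ) := Nat.cast_nonneg _
    nlinarith
  intro l a q X hl hq hql hX1 hX2 T hT
  have hl2 : 2 ≤ l := hy₁r.trans hl
  have hl1 : 1 < l := by linarith
  have hl0 : 0 < l := by linarith
  have hX1' : (1 : ℝ) ≤ X := (Real.one_le_rpow hl1.le (by positivity)).trans hX1
  have hX0 : (0 : ℝ) < X := by linarith
  have hXn : 1 ≤ X := by exact_mod_cast hX1'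
  have hlogX : Real.log X ≤ l ^ (2 / A) := by
    rw [Real.log_le_iff_le_exp hX0]
    exact hX2
  have hlogX0 : 0 ≤ Real.log X := Real.log_nonneg hX1'
  have hXA : (Real.log X / A) ^ A ≤ l ^ 2 := by
    have h1 : Real.log X / A ≤ l ^ (2 / A) := by
      refine (div_le_self hlogX0 (by linarith)).trans hlogX
    calc (Real.log X / A) ^ A ≤ (l ^ (2 / A)) ^ A :=
          Real.rpow_le_rpow (div_nonneg hlogX0 hA0.le) h1 hA0.le
      _ = l ^ (2 : ℝ) := by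
          rw [← Real.rpow_mul hl0.le, div_mul_cancel₀ _ hA0.ne']
      _ = l ^ 2 := by
          rw [← Real.rpow_natCast]
          norm_num
  have hl3 : ∀ s : ℝ, 3 ≤ (3 / c + 6 / ε) * s → 0 < s → l ^ 3 ≤ (X : ℝ) ^ s := by
    intro s hs hs0
    calc l ^ 3 = l ^ (3 : ℝ) := by
          rw [← Real.rpow_natCast]
          norm_num
      _ ≤ l ^ ((3 / c + 6 / ε) * s) := Real.rpow_le_rpow_of_exponent_le hl1.le hs
      _ = (l ^ (3 / c + 6 / ε)) ^ s := Real.rpow_mul hl0.le _ _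
      _ ≤ (X : ℝ) ^ s := Real.rpow_le_rpow (by positivity) hX1 hs0.le
  obtain ⟨P, hP⟩ : ∃ P : ℕ → Finset ℕ, P = fun y => (oq Q y).filter (fun p => ¬ p ∣ q) := ⟨_, rfl⟩
  -- the primes dividing `q`
  have hω : ∀ y : ℕ, (((oq Q y).filter (fun p => p ∣ q)).card : ℝ) ≤ 4 * l := by
    intro y
    have h1 : (oq Q y).filter (fun p => p ∣ q) ⊆ q.primeFactors := by
      intro p hp
      rw [mem_filter, oq, mem_filter] at hp
      exact Nat.mem_primeFactors.mpr ⟨hp.1.2.1, hp.2, by omega⟩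
    have h2 := SPL.card_primeFactors_le q (by omega)
    have h3 : (((oq Q y).filter (fun p => p ∣ q)).card : ℝ) ≤ q.primeFactors.card := by
      exact_mod_cast card_le_card h1
    linarith
  have hsplit : ∀ y : ℕ, ((oq Q y).card : ℝ) =
      ((oq Q y).filter (fun p => p ∣ q)).card + (P y).card := by
    intro y
    have := card_filter_add_card_filter_not (s := oq Q y) (fun p => p ∣ q)
    rw [hP]
    exact_mod_cast this.symm
  obtain ⟨B, hB⟩ : ∃ B : ℕ → Finset ℕ, B = fun y => (range X).filter (fun j : ℕ =>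
    η / 2 * (P y).card ≤ |((∑ p ∈ P y, jacobiSym (-((a + q * j : ℕ) : ℤ)) p : ℤ) : ℝ)|) := ⟨_, rfl⟩
  obtain ⟨Y, hYdef⟩ : ∃ Y : Finset ℕ, Y = (range (⌊(X : ℝ) ^ (ε / 2)⌋₊ + 1)).filter (fun y : ℕ =>
    κ / 2 * (y : ℝ) ^ ρ ≤ (P y).card * Real.log y ∧ (Real.log X / A) ^ A ≤ (y : ℝ) ∧
      (y : ℝ) ≤ (X : ℝ) ^ c) := ⟨_, rfl⟩
  have hBc : ∀ y ∈ Y, ((B y).card : ℝ) ≤ K₀ * (X : ℝ) ^ (1 - ρ / 2 + 1 / (2 * A) + ε / 2) := by
    intro y hy
    rw [hYdef, mem_filter] at hy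
    rw [hB]
    refine hbad a q (P y) X y hXn ?_ hy.2.2.1 hy.2.2.2 hy.2.1
    intro p hp
    rw [hP] at hp
    simp only [mem_filter, oq, mem_range] at hp
    exact ⟨hp.1.2.1, hp.1.2.2.1, by omega, hp.2⟩
  have key : T ⊆ Y.biUnion B := by
    intro j hj
    obtain ⟨hjX, y, hyl2, hyl3, hss⟩ := hT j hj
    obtain ⟨hy1, hly⟩ := hfact l hl y hyl2
    obtain ⟨hk1, hk2⟩ := hbig y hy1
    have hy2 : 2 ≤ y := hy₁2.trans hy1
    have hy2' : (2 : ℝ) ≤ y := by exact_mod_cast hy2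
    have hly0 : 0 < Real.log (y : ℝ) := Real.log_pos (by linarith)
    have hω1 := hω y
    have hs := hsplit y
    have hcn : (0 : ℝ) ≤ (oq Q y).card := Nat.cast_nonneg _
    have hPn : (0 : ℝ) ≤ (P y).card := Nat.cast_nonneg _
    have hωn : (0 : ℝ) ≤ ((oq Q y).filter (fun p => p ∣ q)).card := Nat.cast_nonneg _
    have h4 : (((oq Q y).filter (fun p => p ∣ q)).card : ℝ) ≤ η / 2 * (oq Q y).card := by
      linarith
    have h5 : ((oq Q y).card : ℝ) ≤ 2 * (P y).card := by nlinarith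
    have hP1 : κ / 2 * (y : ℝ) ^ ρ ≤ (P y).card * Real.log y := by
      have h6 : ((oq Q y).card : ℝ) * Real.log y ≤ 2 * (P y).card * Real.log y :=
        mul_le_mul_of_nonneg_right h5 hly0.le
      linarith
    have hyY : y ∈ Y := by
      rw [hYdef, mem_filter, mem_range]
      refine ⟨?_, hP1, hXA.trans hyl2, hyl3.trans (hl3 c hC3 hc)⟩
      have := Nat.le_floor (hyl3.trans (hl3 (ε / 2) hC4 (by positivity)))
      omega
    rw [mem_biUnion]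
    refine ⟨y, hyY, ?_⟩
    rw [hB]
    simp only [mem_filter, mem_range]
    refine ⟨hjX, ?_⟩
    have h7 : (ss Q (a + q * j) y : ℝ) =
        ((∑ p ∈ (oq Q y).filter (fun p => p ∣ q), jacobiSym (-((a + q * j : ℕ) : ℤ)) p : ℤ) : ℝ) +
        ((∑ p ∈ P y, jacobiSym (-((a + q * j : ℕ) : ℤ)) p : ℤ) : ℝ) := by
      rw [hP, ss]
      have := sum_filter_add_sum_filter_not (oq Q y) (fun p => p ∣ q)
        (fun p => jacobiSym (-((a + q * j : ℕ) : ℤ)) p)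
      rw [← this]
      push_cast
      rfl
    have h8 : |((∑ p ∈ (oq Q y).filter (fun p => p ∣ q),
        jacobiSym (-((a + q * j : ℕ) : ℤ)) p : ℤ) : ℝ)| ≤
        ((oq Q y).filter (fun p => p ∣ q)).card := by
      push_cast
      refine (abs_sum_le_sum_abs _ _).trans ?_
      refine (sum_le_sum (g := fun _ => (1 : ℝ)) fun p _ => ?_).trans (by simp)
      have h := Pool.Agent.H379R2.W.jacobi_natAbs_le (-((a + q * j : ℕ) : ℤ)) p
      push_cast at h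
      exact_mod_cast h
    have h9 := abs_add_le ((∑ p ∈ (oq Q y).filter (fun p => p ∣ q),
        jacobiSym (-((a + q * j : ℕ) : ℤ)) p : ℤ) : ℝ)
        ((∑ p ∈ P y, jacobiSym (-((a + q * j : ℕ) : ℤ)) p : ℤ) : ℝ)
    rw [← h7] at h9
    have h10 : (P y).card ≤ ((oq Q y).card : ℝ) := by linarith
    nlinarith
  have hcard := card_le_card key
  have hc1 : (T.card : ℝ) ≤ ∑ y ∈ Y, K₀ * (X : ℝ) ^ (1 - ρ / 2 + 1 / (2 * A) + ε / 2) := by
    have h1 : (T.card : ℝ) ≤ ∑ y ∈ Y, ((B y).card : ℝ) := by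
      exact_mod_cast hcard.trans card_biUnion_le
    exact h1.trans (sum_le_sum hBc)
  have hYcard : (Y.card : ℝ) ≤ (X : ℝ) ^ (ε / 2) + 1 := by
    have h1 : (Y.card : ℝ) ≤ (⌊(X : ℝ) ^ (ε / 2)⌋₊ : ℝ) + 1 := by
      have h0 : Y.card ≤ ⌊(X : ℝ) ^ (ε / 2)⌋₊ + 1 := by
        rw [hYdef]
        refine (card_filter_le _ _).trans ?_
        rw [card_range]
      exact_mod_cast h0
    have h2 : (⌊(X : ℝ) ^ (ε / 2)⌋₊ : ℝ) ≤ (X : ℝ) ^ (ε / 2) := Nat.floor_le (by positivity)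
    linarith
  rw [sum_const, nsmul_eq_mul] at hc1
  have hE1 : (1 : ℝ) ≤ (X : ℝ) ^ (ε / 2) := Real.one_le_rpow hX1' (by positivity)
  have hprod : (X : ℝ) ^ (ε / 2) * (X : ℝ) ^ (1 - ρ / 2 + 1 / (2 * A) + ε / 2) =
      (X : ℝ) ^ (1 - ρ / 2 + 1 / (2 * A) + ε) := by
    rw [← Real.rpow_add hX0]
    congr 1
    ring
  have h1 : (Y.card : ℝ) ≤ 2 * (X : ℝ) ^ (ε / 2) := by linarith
  refine hc1.trans ?_
  calc (Y.card : ℝ) * (K₀ * (X : ℝ) ^ (1 - ρ / 2 + 1 / (2 * A) + ε / 2))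
      ≤ (2 * (X : ℝ) ^ (ε / 2)) * (K₀ * (X : ℝ) ^ (1 - ρ / 2 + 1 / (2 * A) + ε / 2)) := by
        apply mul_le_mul_of_nonneg_right h1
        positivity
    _ = 2 * K₀ * ((X : ℝ) ^ (ε / 2) * (X : ℝ) ^ (1 - ρ / 2 + 1 / (2 * A) + ε / 2)) := by ring
    _ = _ := by rw [hprod]

end Pool.Agent.R418.SI
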