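import Pool.Agent.R418.SI.C

set_option autoImplicit false

/-! The splitting of the primes below the threshold. -/

namespace Pool.Agent.R418.SI

open Finset Filter Pool.Agent.Y549.SP Pool.Agent.Y549.SP.SPL

/-- `p` does not divide `t` and `-t` is a square modulo `p` -/
def spl' (t p : ℕ) : Prop := ¬ p ∣ t ∧ ∃ x : ℤ, (p : ℤ) ∣ x ^ 2 + t

theorem spl'_iff (t p : ℕ) (hp : p.Prime) : spl' t p ↔ jacobiSym (-(t : ℤ)) p = 1 := by
  have : Fact p.Prime := ⟨hp⟩
  rw [← jacobiSym.legendreSym.to_jacobiSym]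
  constructor
  · rintro ⟨h1, x, hx⟩
    have h0 : ((-(t : ℤ) : ℤ) : ZMod p) ≠ 0 := by
      intro h
      rw [ZMod.intCast_zmod_eq_zero_iff_dvd, dvd_neg] at h
      exact h1 (by exact_mod_cast h)
    rw [legendreSym.eq_one_iff p h0]
    refine ⟨(x : ZMod p), ?_⟩
    have h2 := (ZMod.intCast_zmod_eq_zero_iff_dvd (x ^ 2 + t) p).mpr hx
    push_cast at h2 ⊢
    linear_combination (-1 : ZMod p) * h2
  · intro h
    have h0 : ((-(t : ℤ) : ℤ) : ZMod p) ≠ 0 := by
      intro h0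
      have := (legendreSym.eq_zero_iff p (-(t : ℤ))).mpr h0
      rw [this] at h
      norm_num at h
    rw [legendreSym.eq_one_iff p h0] at h
    refine ⟨?_, ?_⟩
    · intro h2
      apply h0
      rw [ZMod.intCast_zmod_eq_zero_iff_dvd, dvd_neg]
      exact_mod_cast h2
    · obtain ⟨z, hz⟩ := h
      refine ⟨(z.val : ℤ), ?_⟩
      rw [← ZMod.intCast_zmod_eq_zero_iff_dvd]
      push_cast at hz ⊢
      rw [ZMod.natCast_zmod_val]
      linear_combination (-1 : ZMod p) * hz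

/-- the primes `p ≤ y` in `Q` with `spl'` -/
def splitIn' (Q : Set ℕ) (t y : ℕ) : Set ℕ := {p | p.Prime ∧ p ≤ y ∧ p ∈ Q ∧ spl' t p}

open Classical in
theorem count' (t : ℕ) (ht : t ≠ 0) (Q : Set ℕ) (y : ℕ) :
    |2 * ((splitIn' Q t y).ncard : ℝ) - (primesIn Q y).ncard| ≤
      1 + 2 * Real.log t + |(ss Q t y : ℝ)| := by
  have e1 : primesIn Q y = ((pq Q y : Finset ℕ) : Set ℕ) := by
    ext p
    simp only [primesIn, pq, Set.mem_ofPred_eq, coe_filter, mem_range]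
    constructor
    · rintro ⟨h1, h2, h3⟩
      exact ⟨by omega, h1, h3⟩
    · rintro ⟨h1, h2, h3⟩
      exact ⟨h2, by omega, h3⟩
  have e2 : splitIn' Q t y =
      (((pq Q y).filter (fun p => spl' t p) : Finset ℕ) : Set ℕ) := by
    ext p
    simp only [splitIn', pq, Set.mem_ofPred_eq, coe_filter, mem_filter, mem_range]
    constructor
    · rintro ⟨h1, h2, h3, h4⟩
      exact ⟨⟨by omega, h1, h3⟩, h4⟩
    · rintro ⟨⟨h1, h2, h3⟩, h4⟩
      exact ⟨h2, by omega, h3, h4⟩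
  rw [e1, e2, Set.ncard_coe_finset, Set.ncard_coe_finset]
  set P := pq Q y with hP
  have hPm : ∀ p, p ∈ P → p.Prime := fun p hp => by
    rw [hP, pq, mem_filter] at hp
    exact hp.2.1
  have h1 : 2 * ((P.filter (fun p => spl' t p)).card : ℝ) - (P.card : ℝ) =
      ∑ p ∈ P, (2 * (if spl' t p then (1 : ℝ) else 0) - 1) := by
    rw [sum_sub_distrib, ← mul_sum, ← sum_filter, sum_const, sum_const, nsmul_eq_mul,
      nsmul_eq_mul, mul_one, mul_one]
  have h2 : (ss Q t y : ℝ) =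
      ∑ p ∈ P, (if p = 2 then (0 : ℝ) else (jacobiSym (-(t : ℤ)) p : ℝ)) := by
    rw [ss]
    push_cast
    have e : oq Q y = P.filter (fun p => ¬ p = 2) := by
      ext p
      rw [hP, oq, pq, mem_filter, mem_filter, mem_filter]
      tauto
    rw [e, sum_filter]
    refine sum_congr rfl fun p hp => ?_
    by_cases h : p = 2
    · rw [if_neg (fun h' => h' h), if_pos h]
    · rw [if_pos h, if_neg h]
  have h3 : ∀ p ∈ P, |(2 * (if spl' t p then (1 : ℝ) else 0) - 1) -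
      (if p = 2 then (0 : ℝ) else (jacobiSym (-(t : ℤ)) p : ℝ))| ≤
        (if p = 2 then (1 : ℝ) else 0) + (if p ∣ t then (1 : ℝ) else 0) := by
    intro p hp
    have hpp := hPm p hp
    by_cases hp2 : p = 2
    · rw [if_pos hp2, if_pos hp2]
      have h3 : (0 : ℝ) ≤ (if p ∣ t then (1 : ℝ) else 0) := by split_ifs <;> norm_num
      have h4 : |(2 * (if spl' t p then (1 : ℝ) else 0) - 1) - 0| ≤ 1 := by
        split_ifs <;> norm_num
      linarith
    · rw [if_neg hp2, if_neg hp2, zero_add]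
      have hiff := spl'_iff t p hpp
      have : Fact p.Prime := ⟨hpp⟩
      rcases jacobiSym.trichotomy (-(t : ℤ)) p with h | h | h
      · have h3 : p ∣ t := by
          rw [← jacobiSym.legendreSym.to_jacobiSym, legendreSym.eq_zero_iff,
            ZMod.intCast_zmod_eq_zero_iff_dvd, dvd_neg] at h
          exact_mod_cast h
        have h4 : ¬ spl' t p := fun h5 => h5.1 h3
        rw [if_neg h4, if_pos h3, h]
        norm_num
      · have h4 : spl' t p := hiff.mpr h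
        rw [if_pos h4, h, if_neg h4.1]
        norm_num
      · have h4 : ¬ spl' t p := fun h5 => by
          rw [hiff.mp h5] at h
          norm_num at h
        rw [if_neg h4, h]
        have h3 : (0 : ℝ) ≤ (if p ∣ t then (1 : ℝ) else 0) := by
          split_ifs <;> norm_num
        have h5 : |(2 * (0 : ℝ) - 1) - (((-1 : ℤ) : ℤ) : ℝ)| = 0 := by norm_num
        rw [h5]
        exact h3
  have h4 : |∑ p ∈ P, ((2 * (if spl' t p then (1 : ℝ) else 0) - 1) -
      (if p = 2 then (0 : ℝ) else (jacobiSym (-(t : ℤ)) p : ℝ)))| ≤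
      1 + ((P.filter (fun p : ℕ => p ∣ t)).card : ℝ) := by
    refine (abs_sum_le_sum_abs _ _).trans ((sum_le_sum h3).trans ?_)
    rw [sum_add_distrib, ← sum_filter, ← sum_filter, sum_const, sum_const,
      nsmul_eq_mul, nsmul_eq_mul, mul_one, mul_one]
    have h5 : ((P.filter (fun p => p = 2)).card : ℝ) ≤ 1 := by
      have h6 : P.filter (fun p => p = 2) ⊆ {2} := by
        intro p hp
        rw [mem_filter] at hp
        exact mem_singleton.mpr hp.2
      have := card_le_card h6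
      rw [card_singleton] at this
      exact_mod_cast this
    linarith
  have h5 : ((P.filter (fun p : ℕ => p ∣ t)).card : ℝ) ≤ 2 * Real.log t := by
    have h6 : P.filter (fun p : ℕ => p ∣ t) ⊆ t.primeFactors := by
      intro p hp
      rw [mem_filter] at hp
      exact Nat.mem_primeFactors.mpr ⟨hPm p hp.1, hp.2, ht⟩
    have h7 := card_le_card h6
    have h8 := card_primeFactors_le t ht
    have h10 : ((P.filter (fun p : ℕ => p ∣ t)).card : ℝ) ≤ t.primeFactors.card := by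
      exact_mod_cast h7
    linarith
  have h6 : 2 * ((P.filter (fun p => spl' t p)).card : ℝ) - (P.card : ℝ) =
      ∑ p ∈ P, ((2 * (if spl' t p then (1 : ℝ) else 0) - 1) -
      (if p = 2 then (0 : ℝ) else (jacobiSym (-(t : ℤ)) p : ℝ))) + (ss Q t y : ℝ) := by
    rw [h1, h2, ← sum_add_distrib]
    refine sum_congr rfl fun p _ => ?_
    ring
  rw [h6]
  refine (abs_add_le _ _).trans ?_
  linarith

/-- the number of the primes in `Q` below the threshold with `spl'` -/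
noncomputable def NS (Q : Set ℕ) (t : ℕ) : ℕ := Set.ncard {p : ℕ | p.Prime ∧ p ∈ Q ∧
  (p : ℝ) < thr (-(t : ℤ)) ∧ ¬ p ∣ t ∧ ∃ x : ℤ, (p : ℤ) ∣ x ^ 2 + t}

/-- both kinds of bad terms -/
theorem main (A ρ η ε : ℝ) (Q : Set ℕ) (hA : 2 ≤ A) (hρ : 1 / 2 < ρ) (hρ1 : ρ ≤ 1) (hη : 0 < η)
    (hε : 0 < ε) (hQ : Thick Q ρ) :
    ∃ C K : ℝ, 0 < C ∧ 0 < K ∧ ∀ T₀ a q X : ℕ, 1 ≤ q → T₀ ≤ a → a + q * X ≤ T₀ ^ 2 →
      Real.log T₀ ^ C ≤ X → (X : ℝ) ≤ Real.exp (Real.log T₀ ^ (2 / A)) → ∀ T : Finset ℕ,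
      (∀ j ∈ T, j < X ∧
        ((NegFund (-((a + q * j : ℕ) : ℤ)) ∧
          ¬ |2 * (NQ Q (-((a + q * j : ℕ) : ℤ)) : ℝ) - MQ Q (-((a + q * j : ℕ) : ℤ))| ≤
            η * MQ Q (-((a + q * j : ℕ) : ℤ))) ∨
         ¬ |2 * (NS Q (a + q * j) : ℝ) - MQ Q (-((a + q * j : ℕ) : ℤ))| ≤
            η * MQ Q (-((a + q * j : ℕ) : ℤ)))) →
      (T.card : ℝ) ≤ K * (X : ℝ) ^ (1 - ρ / 2 + 1 / (2 * A) + ε) := by
  classical
  have hA0 : (0 : ℝ) < A := by linarith
  obtain ⟨η₁, hη₁d⟩ : ∃ η₁ : ℝ, η₁ = min η 1 := ⟨_, rfl⟩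
  have hη₁ : 0 < η₁ := by rw [hη₁d]; exact lt_min hη one_pos
  have hη₁1 : η₁ ≤ 1 := by rw [hη₁d]; exact min_le_right _ _
  have hη₁η : η₁ ≤ η := by rw [hη₁d]; exact min_le_left _ _
  obtain ⟨C, K, L₁, hC, hK, hL₁, hoq, hcore⟩ := CORE A ρ (η₁ / 2) ε Q hA hρ hρ1 (by positivity)
    (by linarith) hε hQ
  -- large `l`
  have hev1 : ∀ᶠ l : ℝ in atTop, Real.log (2 * l) ≤ 1 / 4 * (2 * l) ^ (1 / 2 : ℝ) := by
    have h1 := (isLittleO_log_rpow_atTop (r := (1 / 2 : ℝ)) (by norm_num)).bound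
      (c := 1 / 4) (by norm_num)
    have h2 : Tendsto (fun l : ℝ => 2 * l) atTop atTop :=
      tendsto_id.const_mul_atTop two_pos
    filter_upwards [h2.eventually h1, eventually_ge_atTop (0 : ℝ)] with l hl hl0
    rw [Real.norm_eq_abs, Real.norm_eq_abs,
      abs_of_nonneg (Real.rpow_nonneg (by linarith : (0 : ℝ) ≤ 2 * l) _)] at hl
    exact (le_abs_self _).trans hl
  have hev2 : ∀ᶠ l : ℝ in atTop, 2 ≤ Real.log l :=
    Real.tendsto_log_atTop.eventually (eventually_ge_atTop 2)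
  obtain ⟨L₂, hL₂⟩ := eventually_atTop.1 (hev1.and hev2)
  obtain ⟨L₀, hL₀⟩ : ∃ L₀ : ℝ, L₀ = max L₁ (max L₂ 2) := ⟨_, rfl⟩
  have hiA : 0 < 1 / (2 * A) := by positivity
  refine ⟨C, K + Real.exp L₀, hC, by positivity, ?_⟩
  intro T₀ a q X hq ha1 ha2 hX1 hX2 T hT
  obtain ⟨l, hl⟩ : ∃ l : ℝ, l = Real.log T₀ := ⟨_, rfl⟩
  have hl0 : 0 ≤ l := by rw [hl]; exact Real.log_natCast_nonneg T₀
  rw [← hl] at hX1 hX2
  rcases Nat.eq_zero_or_pos X with hX0 | hXn
  · have hTe : T = ∅ := by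
      rw [eq_empty_iff_forall_notMem]
      intro j hj
      have := (hT j hj).1
      omega
    rw [hTe, card_empty, Nat.cast_zero]
    positivity
  have hX1' : (1 : ℝ) ≤ X := by exact_mod_cast hXn
  have hX0 : (0 : ℝ) < X := by linarith
  have hbig : (1 : ℝ) ≤ (X : ℝ) ^ (1 - ρ / 2 + 1 / (2 * A) + ε) :=
    Real.one_le_rpow hX1' (by linarith)
  by_cases hlL : l < L₀
  · have h1 : T ⊆ range X := by
      intro j hj
      exact mem_range.2 (hT j hj).1
    have h2 : (T.card : ℝ) ≤ X := by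
      have := card_le_card h1
      rw [card_range] at this
      exact_mod_cast this
    have hL02 : 2 ≤ L₀ := by rw [hL₀]; exact (le_max_right _ _).trans (le_max_right _ _)
    have h3 : Real.exp (l ^ (2 / A)) ≤ Real.exp L₀ := by
      apply Real.exp_le_exp.2
      have h2A : 2 / A ≤ 1 := by
        rw [div_le_one hA0]
        exact hA
      rcases le_total l 1 with h | h
      · have : l ^ (2 / A) ≤ 1 := Real.rpow_le_one hl0 h (by positivity)
        linarith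
      · have : l ^ (2 / A) ≤ l ^ (1 : ℝ) := Real.rpow_le_rpow_of_exponent_le h h2A
        rw [Real.rpow_one] at this
        linarith
    have h4 := mul_le_mul_of_nonneg_left hbig (Real.exp_pos L₀).le
    have h5 : 0 ≤ K * (X : ℝ) ^ (1 - ρ / 2 + 1 / (2 * A) + ε) := by positivity
    rw [add_mul]
    linarith
  push Not at hlL
  have hlL1 : L₁ ≤ l := (le_max_left _ _).trans (hL₀ ▸ hlL)
  have hlL2 : L₂ ≤ l := ((le_max_left _ _).trans (le_max_right _ _)).trans (hL₀ ▸ hlL)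
  have hl2 : 2 ≤ l := ((le_max_right _ _).trans (le_max_right _ _)).trans (hL₀ ▸ hlL)
  have hl1 : 1 < l := by linarith
  obtain ⟨hlog2l, hlogl⟩ := hL₂ l hlL2
  have hT₀ : 1 ≤ T₀ := by
    rw [Nat.one_le_iff_ne_zero]
    rintro rfl
    rw [Nat.cast_zero, Real.log_zero] at hl
    linarith
  have hT₀r : (1 : ℝ) ≤ T₀ := by exact_mod_cast hT₀
  have hlogT2 : ∀ t : ℕ, 1 ≤ t → t ≤ T₀ ^ 2 → Real.log t ≤ 2 * l := by
    intro t ht1 ht
    have h1 : (t : ℝ) ≤ (T₀ : ℝ) ^ 2 := by exact_mod_cast ht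
    have h2 := Real.log_le_log (by exact_mod_cast ht1) h1
    rw [Real.log_pow, ← hl] at h2
    exact_mod_cast h2
  have hqT : q ≤ T₀ ^ 2 := by
    calc q = q * 1 := (mul_one q).symm
      _ ≤ q * X := Nat.mul_le_mul_left q hXn
      _ ≤ T₀ ^ 2 := by omega
  have hTcard := hcore l a q X hlL1 hq (hlogT2 q hq hqT) hX1 hX2 T (by
    intro j hj
    obtain ⟨hjX, hbad⟩ := hT j hj
    refine ⟨hjX, ?_⟩
    obtain ⟨t, ht⟩ : ∃ t : ℕ, t = a + q * j := ⟨_, rfl⟩
    rw [← ht] at hbad ⊢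
    have ht1 : T₀ ≤ t := by rw [ht]; omega
    have ht0 : 1 ≤ t := hT₀.trans ht1
    have ht2 : t ≤ T₀ ^ 2 := by
      have : q * j ≤ q * X := Nat.mul_le_mul_left q hjX.le
      omega
    have htr : (0 : ℝ) < t := by exact_mod_cast ht0
    have habs : |((-(t : ℤ) : ℤ) : ℝ)| = t := by
      push_cast
      rw [abs_neg, Nat.abs_cast]
    obtain ⟨L, hL⟩ : ∃ L : ℝ, L = Real.log |((-(t : ℤ) : ℤ) : ℝ)| := ⟨_, rfl⟩
    have hLt : L = Real.log t := by rw [hL, habs]
    have hLl : l ≤ L := by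
      rw [hLt, hl]
      exact Real.log_le_log (by linarith) (by exact_mod_cast ht1)
    have hL2 : L ≤ 2 * l := by rw [hLt]; exact hlogT2 t ht0 ht2
    have hlogL : 2 ≤ Real.log L := hlogl.trans (Real.log_le_log (by linarith) hLl)
    have hlogL2 : Real.log L ≤ Real.log (2 * l) := Real.log_le_log (by linarith) hL2
    have hthr : thr (-(t : ℤ)) = L ^ 2 * Real.log L ^ 2 := by rw [thr, hL]
    have hthr1 : l ^ 2 + 1 ≤ thr (-(t : ℤ)) := by
      rw [hthr]
      exact TW.thr_ge hl1 hLl hlogL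
    have hthr2 : thr (-(t : ℤ)) ≤ l ^ 3 := by
      rw [hthr]
      exact TW.thr_le hl1 hLl hL2 hlogL (hlogL2.trans hlog2l)
    have hthr0 : 0 < thr (-(t : ℤ)) := lt_of_lt_of_le (by positivity) hthr1
    obtain ⟨y, hy⟩ : ∃ y : ℕ, y = ⌈thr (-(t : ℤ))⌉₊ - 1 := ⟨_, rfl⟩
    obtain ⟨hylt, hyge, hNQ, hMQ⟩ := TW.range_eq Q (-(t : ℤ)) hthr0 y hy
    have hyl2 : l ^ 2 ≤ (y : ℝ) := by linarith
    have hyl3 : (y : ℝ) ≤ l ^ 3 := by linarith
    refine ⟨y, hyl2, hyl3, ?_⟩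
    have h7 := hoq l hlL1 y hyl2
    have hcle : ((oq Q y).card : ℝ) ≤ (MQ Q (-(t : ℤ)) : ℝ) := by
      rw [← hMQ]
      exact_mod_cast CNT2.card_oq_le Q y
    have h6 : η₁ * ((oq Q y).card : ℝ) ≤ η * (MQ Q (-(t : ℤ)) : ℝ) :=
      mul_le_mul hη₁η hcle (Nat.cast_nonneg _) hη.le
    rcases hbad with ⟨hNF, hb⟩ | hb
    · have hmod : (-(t : ℤ)) % 4 = 0 ∨ (-(t : ℤ)) % 4 = 1 := by
        obtain ⟨-, ⟨h, -⟩ | ⟨m, h, -, -⟩⟩ := hNF
        · exact Or.inr h
        · left; omega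
      have h5 := SPL.count t t (by omega) hmod (fun _ _ _ => rfl) Q y
      rw [hNQ, hMQ] at h5
      have h11 := (not_le.1 hb).le.trans h5
      rw [← hLt] at h11
      linarith
    · have h5 := count' t (by omega) Q y
      have hNS : (splitIn' Q t y).ncard = NS Q t := by
        rw [NS]
        congr 1
        ext p
        simp only [splitIn', spl', Set.mem_ofPred_eq]
        have hiff : p ≤ y ↔ (p : ℝ) < thr (-(t : ℤ)) := by
          rw [← Nat.lt_ceil, hy]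
          have hc1 : 1 ≤ ⌈thr (-(t : ℤ))⌉₊ := Nat.one_le_ceil_iff.mpr hthr0
          omega
        rw [hiff]
        tauto
      rw [hNS, hMQ] at h5
      have h11 := (not_le.1 hb).le.trans h5
      rw [← hLt] at h11
      linarith)
  have h5 : 0 ≤ Real.exp L₀ * (X : ℝ) ^ (1 - ρ / 2 + 1 / (2 * A) + ε) := by positivity
  rw [add_mul]
  linarith

end Pool.Agent.R418.SI
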